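import Mathlib

namespace Pool.Agent.Results.MP_7ac2f5_co.Redundant

open Finset Filter Topology
open scoped ENNReal

/-- The `ℓ_q` norm on `ℝ^d`. -/
noncomputable def nrm {d : ℕ} (q : ℝ≥0∞) (z : Fin d → ℝ) : ℝ :=
  ‖(WithLp.toLp q z : PiLp q fun _ : Fin d => ℝ)‖

/-- `(G, p)` is well-positioned in `ℓ_q^d` and every infinitesimal flex is constant. -/
def Rigid {V : Type} {d : ℕ} (q : ℝ≥0∞) (G : SimpleGraph V) (p : V → Fin d → ℝ) : Prop :=
  (∀ u v, G.Adj u v → DifferentiableAt ℝ (nrm q) (p u - p v)) ∧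
  ∀ m : V → Fin d → ℝ, (∀ u v, G.Adj u v → fderiv ℝ (nrm q) (p u - p v) (m u - m v) = 0) →
    ∀ u v, m u = m v

/-- Redundant rigidity. -/
def RedRigid {V : Type} {d : ℕ} (q : ℝ≥0∞) (G : SimpleGraph V) (p : V → Fin d → ℝ) : Prop :=
  Rigid q G p ∧ ∀ e ∈ G.edgeSet, Rigid q (G.deleteEdges {e}) p

/-- The edge set of `G` is the disjoint union of the edge sets of `d` Hamilton cycles. -/
def HamDec {V : Type} [DecidableEq V] (d : ℕ) (G : SimpleGraph V) : Prop :=
  ∃ (a : Fin d → V) (H : ∀ k, G.Walk (a k) (a k)), (∀ k, (H k).IsHamiltonianCycle) ∧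
    ∀ e ∈ G.edgeSet, ∃! k, e ∈ (H k).edges

theorem dom {C : Type} [Fintype C] (a D : C → ℝ) (ha : ∀ c c', c ≠ c' → a c ^ 2 ≠ a c' ^ 2)
    (h0 : ∀ c, a c ≠ 0) (c0 : C) (hD : D c0 ≠ 0) : ∀ᶠ s : ℕ in atTop, ∑ c, a c ^ s * D c ≠ 0 := by
  classical
  obtain ⟨b, hb, hm⟩ := exists_max_image (univ.filter fun c => D c ≠ 0) (fun c => |a c|)
    ⟨c0, by simpa using hD⟩
  have hb : D b ≠ 0 := by simpa using hb
  have h1 : Tendsto (fun s : ℕ => ∑ c, (a c / a b) ^ s * D c) atTop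
      (𝓝 (∑ c, if c = b then D b else 0)) := by
    refine tendsto_finsetSum _ fun c _ => ?_
    by_cases hc : c = b
    · simp [hc, h0 b]
    by_cases hd : D c = 0
    · simp [hc, hd]
    have h2 : |a c / a b| < 1 := by
      rw [abs_div, div_lt_one (abs_pos.2 (h0 b))]
      refine lt_of_le_of_ne (hm c (by simpa using hd)) fun e => ha c b hc ?_
      rw [← sq_abs, e, sq_abs]
    simpa [hc] using (tendsto_pow_atTop_nhds_zero_of_abs_lt_one h2).mul_const (D c)
  rw [sum_ite_eq', if_pos (mem_univ _)] at h1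
  filter_upwards [h1.eventually_ne hb] with s hs he
  apply hs
  simp only [div_pow, div_mul_eq_mul_div, ← sum_div, he, zero_div]

theorem common {σ C : Type} [Fintype C] (P : C → MvPolynomial σ ℝ)
    (h : ∀ c, ∃ z, MvPolynomial.eval z (P c) ≠ 0) : ∃ z, ∀ c, MvPolynomial.eval z (P c) ≠ 0 := by
  have h1 : ∏ c, P c ≠ 0 := prod_ne_zero_iff.2 fun c _ e => by
    obtain ⟨z, hz⟩ := h c
    simp [e] at hz
  by_contra hn
  push Not at hn
  refine h1 (MvPolynomial.funext fun z => ?_)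
  obtain ⟨c, hc⟩ := hn z
  rw [map_prod, map_zero]
  exact prod_eq_zero (mem_univ c) hc

theorem generic {V ι : Type} [Fintype V] [Fintype ι] {d : ℕ} (x y : ι → V) (hxy : ∀ i, x i ≠ y i)
    (inj : Function.Injective fun i => s(x i, y i)) :
    ∃ p : V → Fin d → ℝ, (∀ u v k, u ≠ v → p u k ≠ p v k) ∧ ∀ c c' : ι → Fin d, c ≠ c' →
      (∏ i, (p (x i) (c i) - p (y i) (c i))) ^ 2 ≠ (∏ i, (p (x i) (c' i) - p (y i) (c' i))) ^ 2 := by
  classical
  obtain ⟨g, hg⟩ : ∃ g : V → ℝ, Function.Injective g :=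
    ⟨fun v => ((Fintype.equivFin V v : ℕ) : ℝ), fun u v h =>
      (Fintype.equivFin V).injective (Fin.ext (Nat.cast_injective h))⟩
  let Q : (ι → Fin d) → MvPolynomial (V × Fin d) ℝ := fun c =>
    ∏ i, (MvPolynomial.X (x i, c i) - MvPolynomial.X (y i, c i))
  obtain ⟨z, hz⟩ := common (C := (V × V × Fin d) ⊕ ((ι → Fin d) × (ι → Fin d)))
    (Sum.elim (fun t => if t.1 = t.2.1 then 1 else
      MvPolynomial.X (t.1, t.2.2) - MvPolynomial.X (t.2.1, t.2.2))
      fun t => if t.1 = t.2 then 1 else Q t.1 ^ 2 - Q t.2 ^ 2) (by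
    rintro (⟨u, v, k⟩ | ⟨c, c'⟩)
    · refine ⟨fun t => g t.1, ?_⟩
      by_cases h : u = v
      · simp [h]
      · simpa [h, sub_eq_zero] using hg.ne h
    · by_cases h : c = c'
      · exact ⟨0, by simp [h]⟩
      obtain ⟨i0, hi0⟩ := Function.ne_iff.1 h
      refine ⟨fun t => if t = (y i0, c i0) then g (x i0) else g t.1, ?_⟩
      simp only [Sum.elim_inr, h, if_false, map_sub, map_pow, Q, map_prod, MvPolynomial.eval_X]
      rw [prod_eq_zero (mem_univ i0) (by simp [hxy i0])]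
      simp only [ne_eq, OfNat.ofNat_ne_zero, not_false_eq_true, zero_pow, zero_sub, neg_eq_zero,
        pow_eq_zero_iff, prod_eq_zero_iff, mem_univ, true_and, not_exists, sub_eq_zero]
      intro i hi
      have h3 : i = i0 → c' i ≠ c i0 := fun e => e ▸ hi0.symm
      split_ifs at hi with h1 h2 h2
      · exact hxy i ((congrArg Prod.fst h1).trans (congrArg Prod.fst h2).symm)
      · refine h3 (inj ?_) (congrArg Prod.snd h1)
        have e1 : x i = y i0 := congrArg Prod.fst h1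
        simp only [e1, ← hg hi, Sym2.eq_swap]
      · refine h3 (inj ?_) (congrArg Prod.snd h2)
        have e1 : y i = y i0 := congrArg Prod.fst h2
        simp only [e1, hg hi]
      · exact hxy i (hg hi))
  refine ⟨fun v k => z (v, k), fun u v k h => ?_, fun c c' h => ?_⟩
  · simpa [h, sub_eq_zero] using hz (Sum.inl (u, v, k))
  · simpa [h, sub_eq_zero, Q] using hz (Sum.inr (c, c'))

theorem det_exp {ι J : Type} [Fintype ι] [DecidableEq ι] [Fintype J] (w : ι → J → ℝ)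
    (B : ι → J → ι → ℝ) : Matrix.det (Matrix.of fun i => ∑ j, w i j • B i j) =
      ∑ c : ι → J, (∏ i, w i (c i)) * Matrix.det (Matrix.of fun i => B i (c i)) := by
  have := (Matrix.detRowAlternating (n := ι) (R := ℝ)).toMultilinearMap.map_sum
    fun i j => w i j • B i j
  simp only [MultilinearMap.map_smul_univ, smul_eq_mul] at this
  exact this

theorem core {V : Type} [Fintype V] {d : ℕ} (x y : V × Fin d → V) (hxy : ∀ i, x i ≠ y i)
    (inj : Function.Injective fun i => s(x i, y i))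
    (hc : ∀ k r (f : V → ℝ), (∀ v, v ≠ r → f (x (v, k)) = f (y (v, k))) → ∀ u v, f u = f v) :
    ∃ p : V → Fin d → ℝ, (∀ u v k, u ≠ v → p u k ≠ p v k) ∧ ∀ᶠ s : ℕ in atTop,
      ∀ (r : Fin d → V) (m : V → Fin d → ℝ), (∀ i : V × Fin d, i.1 ≠ r i.2 →
        ∑ j, (p (x i) j - p (y i) j) ^ s * (m (x i) j - m (y i) j) = 0) → ∀ u v, m u = m v := by
  classical
  obtain ⟨p, hp, hp2⟩ := generic (d := d) x y hxy inj
  refine ⟨p, hp, ?_⟩
  let B : V → (Fin d → V) → V × Fin d → Fin d → V × Fin d → ℝ := fun o r i j =>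
    if i.1 = r i.2 then (if j = i.2 then Pi.single (o, j) 1 else 0)
    else Pi.single (x i, j) 1 - Pi.single (y i, j) 1
  have hB : ∀ o r i j (v : V × Fin d → ℝ), B o r i j ⬝ᵥ v = if i.1 = r i.2 then
      (if j = i.2 then v (o, j) else 0) else v (x i, j) - v (y i, j) := by
    intro o r i j v
    simp only [B]
    split_ifs <;> simp
  have h1 : ∀ o r, ∀ᶠ s : ℕ in atTop, Matrix.det (Matrix.of fun i =>
      ∑ j, (p (x i) j - p (y i) j) ^ s • B o r i j) ≠ 0 := by
    intro o r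
    simp only [det_exp, prod_pow]
    refine dom _ _ hp2 (fun c => prod_ne_zero_iff.2 fun i _ => sub_ne_zero.2 (hp _ _ _ (hxy i)))
      Prod.snd fun h0 => ?_
    obtain ⟨v, hv, h2⟩ := Matrix.exists_mulVec_eq_zero_iff.2 h0
    have h3 : ∀ i, B o r i i.2 ⬝ᵥ v = 0 := fun i => congrFun h2 i
    refine hv (funext fun ⟨u, k⟩ => ?_)
    have h4 := h3 (r k, k)
    simp only [hB, if_true] at h4
    refine (hc k (r k) (fun u => v (u, k)) (fun w hw => ?_) u o).trans h4
    have h5 := h3 (w, k)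
    simp only [hB, hw, if_false] at h5
    exact sub_eq_zero.1 h5
  filter_upwards [eventually_all.2 fun o => eventually_all.2 (h1 o)] with s hs r m hm u o
  have h2 := Matrix.eq_zero_of_mulVec_eq_zero (hs o r) (v := fun t => m t.1 t.2 - m o t.2) (by
    funext i
    change (∑ j, (p (x i) j - p (y i) j) ^ s • B o r i j) ⬝ᵥ _ = 0
    simp only [sum_dotProduct, smul_dotProduct, hB, smul_eq_mul]
    by_cases h : i.1 = r i.2
    · simp [h]
    · simpa [h] using hm i h)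
  funext k
  exact sub_eq_zero.1 (congrFun h2 (u, k))

theorem walk1 {V : Type} {G : SimpleGraph V} (f : V → ℝ) {a b : V} (w : G.Walk a b)
    (h : ∀ u v, s(u, v) ∈ w.edges → f u = f v) : ∀ v ∈ w.support, f v = f a := by
  induction w with
  | nil => simp
  | cons h1 w ih =>
    intro v hv
    rcases List.mem_cons.1 hv with rfl | hv
    · rfl
    · exact (ih (fun u v e => h u v (List.mem_cons_of_mem _ e)) v hv).trans
        (h _ _ List.mem_cons_self).symm

theorem walk2 {V : Type} {G : SimpleGraph V} (f : V → ℝ) (r : Sym2 V) {a b : V} (w : G.Walk a b)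
    (hw : w.edges.Nodup) (h : ∀ u v, s(u, v) ∈ w.edges → s(u, v) ≠ r → f u = f v) :
    ∀ v ∈ w.support, f v = f a ∨ f v = f b := by
  induction w with
  | nil => simp
  | @cons a a' b h1 w ih =>
    intro v hv
    have hw : s(a, a') ∉ w.edges ∧ w.edges.Nodup := List.nodup_cons.1 hw
    rcases List.mem_cons.1 hv with rfl | hv
    · exact Or.inl rfl
    by_cases hr : s(a, a') = r
    · have := walk1 f w fun u v e => h u v (List.mem_cons_of_mem _ e) fun e' =>
        hw.1 (by rw [hr, ← e']; exact e)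
      exact Or.inr ((this v hv).trans (this b w.end_mem_support).symm)
    · rw [h a a' List.mem_cons_self hr]
      exact ih hw.2 (fun u v e => h u v (List.mem_cons_of_mem _ e)) v hv

theorem deriv_even {d : ℕ} (n : ℕ) (z : Fin d → ℝ) (k : Fin d) (hz : z k ≠ 0) :
    DifferentiableAt ℝ (nrm ((2 * n + 2 : ℕ) : ℝ≥0∞)) z ∧ ∀ h : Fin d → ℝ,
      fderiv ℝ (nrm ((2 * n + 2 : ℕ) : ℝ≥0∞)) z h = 0 → ∑ j, z j ^ (2 * n + 1) * h j = 0 := by
  have ev : Even (2 * n + 2) := ⟨n + 1, by ring⟩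
  have e : (nrm ((2 * n + 2 : ℕ) : ℝ≥0∞) : (Fin d → ℝ) → ℝ) =
      fun z => (∑ j, z j ^ (2 * n + 2)) ^ (1 / ((2 * n + 2 : ℕ) : ℝ)) := by
    funext z
    rw [nrm, PiLp.norm_eq_sum (by rw [ENNReal.toReal_natCast]; positivity)]
    simp only [ENNReal.toReal_natCast, Real.rpow_natCast, Real.norm_eq_abs, ev.pow_abs]
  have pos : 0 < ∑ j, z j ^ (2 * n + 2) :=
    sum_pos' (fun j _ => ev.pow_nonneg _) ⟨k, mem_univ _, ev.pow_pos hz⟩
  have h1 := (HasFDerivAt.fun_sum (u := univ) fun j _ =>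
    (hasFDerivAt_apply (𝕜 := ℝ) j z).pow (2 * n + 2)).rpow_const
      (p := 1 / ((2 * n + 2 : ℕ) : ℝ)) (Or.inl pos.ne')
  rw [e]
  refine ⟨h1.differentiableAt, fun h hh => ?_⟩
  rw [h1.fderiv] at hh
  have h2 := Real.rpow_pos_of_pos pos (((2 * n + 2 : ℕ) : ℝ)⁻¹ - 1)
  have h3 : ((2 * n + 2 : ℕ) : ℝ) ≠ 0 := by positivity
  simp only [smul_apply, _root_.sum_apply,
    ContinuousLinearMap.proj_apply, smul_eq_mul, nsmul_eq_mul, mul_assoc, ← mul_sum,
    mul_eq_zero, h2.ne', h3, one_div, inv_eq_zero, false_or] at hh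
  simpa using hh

theorem yes {V : Type} [Fintype V] [DecidableEq V] {d : ℕ} (hd : 2 ≤ d) {G : SimpleGraph V}
    (h : HamDec d G) : ∃ p : V → Fin d → ℝ, ∀ᶠ n : ℕ in atTop,
      RedRigid ((2 * n + 2 : ℕ) : ℝ≥0∞) G p := by
  obtain ⟨a, H, hH, hu⟩ := h
  have E : ∀ k, V ≃ (H k).edges.toFinset := fun k => Fintype.equivOfCardEq (by
    rw [Fintype.card_coe, List.toFinset_card_of_nodup (hH k).isCycle.edges_nodup,
      SimpleGraph.Walk.length_edges, (hH k).length_eq])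
  have hE : ∀ i : V × Fin d, (E i.2 i.1 : Sym2 V) ∈ (H i.2).edges :=
    fun i => List.mem_toFinset.1 (E i.2 i.1).2
  have : ∀ i : V × Fin d, ∃ x y, s(x, y) = (E i.2 i.1 : Sym2 V) := fun i => by
    induction (E i.2 i.1 : Sym2 V) using Sym2.ind with
    | _ x y => exact ⟨x, y, rfl⟩
  choose x y hxy using this
  have adj : ∀ i, G.Adj (x i) (y i) := fun i =>
    (H i.2).adj_of_mem_edges (by rw [hxy]; exact hE i)
  have inj : Function.Injective fun i => s(x i, y i) := by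
    rintro ⟨u, k⟩ ⟨v, l⟩ e
    have e : s(x (u, k), y (u, k)) = s(x (v, l), y (v, l)) := e
    obtain rfl : k = l := (hu s(x (u, k), y (u, k)) (adj _)).unique
      (by rw [hxy]; exact hE (u, k)) (by rw [e, hxy]; exact hE (v, l))
    rw [hxy, hxy] at e
    exact Prod.ext ((E k).injective (Subtype.ext e)) rfl
  obtain ⟨p, hp, hp2⟩ := core x y (fun i => (adj i).ne) inj (by
    intro k r f hf
    have := walk2 f s(x (r, k), y (r, k)) (H k) (hH k).isCycle.edges_nodup fun u v h1 h2 => by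
      obtain ⟨w, hw⟩ := (E k).surjective ⟨_, List.mem_toFinset.2 h1⟩
      have h3 : s(x (w, k), y (w, k)) = s(u, v) := by rw [hxy, hw]
      have h4 := hf w fun e => h2 (by rw [← h3, e])
      rcases Sym2.eq_iff.1 h3 with ⟨rfl, rfl⟩ | ⟨rfl, rfl⟩
      · exact h4
      · exact h4.symm
    intro u v
    rw [or_self_iff.1 (this u ((hH k).mem_support u)),
      or_self_iff.1 (this v ((hH k).mem_support v))])
  refine ⟨p, ?_⟩
  have ht : Tendsto (fun n : ℕ => 2 * n + 1) atTop atTop :=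
    tendsto_atTop_mono (fun n => by simp only [id]; omega) tendsto_id
  filter_upwards [ht.eventually hp2] with n hn
  have D := fun u v (h : u ≠ v) => deriv_even n (p u - p v) ⟨0, by omega⟩
    (sub_ne_zero.2 (hp u v _ h))
  have key : ∀ (e : Sym2 V) (G' : SimpleGraph V), (∀ u v, G.Adj u v → s(u, v) ≠ e → G'.Adj u v) →
      Rigid ((2 * n + 2 : ℕ) : ℝ≥0∞) G' p := by
    intro e G' hG
    refine ⟨fun u v h => (D u v h.ne).1, fun m hm => ?_⟩
    have : ∀ k, ∃ r, ∀ v, v ≠ r → s(x (v, k), y (v, k)) ≠ e := fun k => by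
      by_cases h : ∃ r, s(x (r, k), y (r, k)) = e
      · obtain ⟨r, hr⟩ := h
        exact ⟨r, fun v hv h => hv (congrArg Prod.fst (inj (h.trans hr.symm)))⟩
      · exact ⟨a k, fun v _ h' => h ⟨v, h'⟩⟩
    choose r hr using this
    exact hn r m fun i hi => (D _ _ (adj i).ne).2 _ (hm _ _ (hG _ _ (adj i) (hr i.2 i.1 hi)))
  exact ⟨key s(a ⟨0, by omega⟩, a ⟨0, by omega⟩) G fun u v h _ => h,
    fun e _ => key e _ fun u v h1 h2 => by simpa [h1] using h2⟩

theorem free (z : Fin 2 → ℝ) (k l : Fin 2) (hkl : k ≠ l) (h : |z k| ≤ |z l|)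
    (hd : DifferentiableAt ℝ (nrm ∞) z) (t : ℝ) : fderiv ℝ (nrm ∞) z (Pi.single k t) = 0 := by
  have e : ∀ w : Fin 2 → ℝ, nrm ∞ w = ‖w‖ := fun w => PiLp.norm_toLp w
  have h1 : HasDerivAt (fun s : ℝ => z + s • (Pi.single k t : Fin 2 → ℝ)) (Pi.single k t) 0 := by
    simpa using ((hasDerivAt_id (0 : ℝ)).smul_const (Pi.single k t : Fin 2 → ℝ)).const_add z
  have h2 := HasFDerivAt.comp_hasDerivAt_of_eq (0 : ℝ) hd.hasFDerivAt h1 (by simp)
  refine IsLocalMin.hasDerivAt_eq_zero (Eventually.of_forall fun s => ?_) h2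
  simp only [Function.comp, e, zero_smul, add_zero]
  have h3 := norm_le_pi_norm (z + s • (Pi.single k t : Fin 2 → ℝ)) l
  simp only [Pi.add_apply, Pi.smul_apply, Pi.single_eq_of_ne hkl.symm, smul_zero, add_zero] at h3
  refine le_trans ((pi_norm_le_iff_of_nonneg (norm_nonneg _)).2 fun j => ?_) h3
  by_cases hj : j = k
  · rw [hj]; exact h
  · rw [show j = l by omega]

theorem no (p : Fin 5 → Fin 2 → ℝ) : ¬ RedRigid ∞ (⊤ : SimpleGraph (Fin 5)) p := by
  rintro ⟨-, h⟩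
  have h1 : ∀ (k l : Fin 2), k ≠ l → ∀ v y : Fin 5, y ≠ v →
      ∃ x, x ≠ v ∧ x ≠ y ∧ |p x l - p v l| < |p x k - p v k| := by
    intro k l hkl v y hy
    by_contra hn
    push Not at hn
    obtain ⟨h2, h3⟩ := h s(v, y) (by simpa using hy.symm)
    have h4 := h3 (fun u => Pi.single k (if u = v then 1 else 0)) (fun a b hab => by
      rw [← Pi.single_sub]
      have hab' := SimpleGraph.deleteEdges_adj.1 hab
      have ne : a ≠ b := hab'.1
      by_cases ha : a = v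
      · refine free _ k l hkl ?_ (h2 a b hab) _
        rw [Pi.sub_apply, Pi.sub_apply, abs_sub_comm, abs_sub_comm (p a l), ha]
        exact hn b (ha ▸ ne.symm) fun e => hab'.2 (by simp [ha, e])
      by_cases hb : b = v
      · refine free _ k l hkl ?_ (h2 a b hab) _
        rw [Pi.sub_apply, Pi.sub_apply, hb]
        exact hn a ha fun e => hab'.2 (by simp [hb, e])
      simp [ha, hb]) v y
    simpa [hy] using congrFun h4 k
  have h2 : ∀ (k l : Fin 2), k ≠ l → ∀ v : Fin 5, ∃ x y, x ≠ y ∧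
      |p x l - p v l| < |p x k - p v k| ∧ |p y l - p v l| < |p y k - p v k| := by
    intro k l hkl v
    obtain ⟨y, hy⟩ := exists_ne v
    obtain ⟨x, hx, -, hx2⟩ := h1 k l hkl v y hy
    obtain ⟨z, -, hz, hz2⟩ := h1 k l hkl v x hx
    exact ⟨x, z, hz.symm, hx2, hz2⟩
  have h3 : ∀ v : Fin 5, (∀ x, p v 0 + p v 1 ≤ p x 0 + p x 1) ∨
      (∀ x, p x 0 + p x 1 ≤ p v 0 + p v 1) →
      (∃ x y, x ≠ y ∧ p x 0 - p x 1 < p v 0 - p v 1 ∧ p y 0 - p y 1 < p v 0 - p v 1) ∧
      (∃ x y, x ≠ y ∧ p v 0 - p v 1 < p x 0 - p x 1 ∧ p v 0 - p v 1 < p y 0 - p y 1) := by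
    intro v hv
    obtain ⟨x, y, hxy, hx, hy⟩ := h2 0 1 (by decide) v
    obtain ⟨z, w, hzw, hz, hw⟩ := h2 1 0 (by decide) v
    rw [← sq_lt_sq] at hx hy hz hw
    rcases hv with hv | hv
    · exact ⟨⟨z, w, hzw, by nlinarith [hv z], by nlinarith [hv w]⟩,
        ⟨x, y, hxy, by nlinarith [hv x], by nlinarith [hv y]⟩⟩
    · exact ⟨⟨x, y, hxy, by nlinarith [hv x], by nlinarith [hv y]⟩,
        ⟨z, w, hzw, by nlinarith [hv z], by nlinarith [hv w]⟩⟩
  have h4 : ∀ (b : Fin 5 → ℝ) (v w : Fin 5), v ≠ w → b v ≤ b w →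
      (∃ x y, x ≠ y ∧ b x < b v ∧ b y < b v) → (∃ x y, x ≠ y ∧ b w < b x ∧ b w < b y) → False := by
    rintro b v w hvw hb ⟨x, y, hxy, hx, hy⟩ ⟨z, t, hzt, hz, ht⟩
    have n : ∀ {i j}, b i < b j → i ≠ j := fun h e => h.ne (congrArg b e)
    have := n hx; have := n hy; have := n hz; have := n ht
    have := n (hx.trans_le hb); have := n (hy.trans_le hb)
    have := n (hb.trans_lt hz); have := n (hb.trans_lt ht)
    have := n ((hx.trans_le hb).trans hz); have := n ((hy.trans_le hb).trans hz)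
    have := n ((hx.trans_le hb).trans ht); have := n ((hy.trans_le hb).trans ht)
    omega
  obtain ⟨v, hv⟩ := Finite.exists_min fun x => p x 0 + p x 1
  obtain ⟨w, hw⟩ := Finite.exists_max fun x => p x 0 + p x 1
  have hvw : v ≠ w := by
    rintro rfl
    obtain ⟨x, -, -, hx, -⟩ := h2 0 1 (by decide) v
    have : p x 1 - p v 1 = -(p x 0 - p v 0) := by linarith [hv x, hw x]
    rw [this, abs_neg] at hx
    exact lt_irrefl _ hx
  rcases le_total (p v 0 - p v 1) (p w 0 - p w 1) with h5 | h5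
  · exact h4 (fun x => p x 0 - p x 1) v w hvw h5 (h3 v (Or.inl hv)).1 (h3 w (Or.inr hw)).2
  · exact h4 (fun x => p x 0 - p x 1) w v hvw.symm h5 (h3 w (Or.inr hw)).1 (h3 v (Or.inl hv)).2

def cyc (s : Fin 5) (hs : s ≠ 0) : (⊤ : SimpleGraph (Fin 5)).Walk 0 0 :=
  .cons (v := s) (by revert s; decide) <| .cons (v := 2 * s) (by revert s; decide) <|
    .cons (v := 3 * s) (by revert s; decide) <| .cons (v := 4 * s) (by revert s; decide) <|
      .cons (v := 0) (by revert s; decide) .nil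

theorem k5 : HamDec 2 (⊤ : SimpleGraph (Fin 5)) := by
  refine ⟨fun _ => 0, fun k => cyc ⟨k + 1, by omega⟩ (by simp), fun k => ?_, fun e he => ?_⟩
  · rw [SimpleGraph.Walk.isHamiltonianCycle_iff_isCycle_and_length_eq,
      SimpleGraph.Walk.isCycle_def, SimpleGraph.Walk.isTrail_def]
    refine ⟨⟨?_, by simp [cyc], ?_⟩, rfl⟩ <;> revert k <;> decide
  · induction e using Sym2.ind with
    | _ a b =>
      have : a ≠ b := he
      simp only [ExistsUnique]
      revert a b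
      decide

theorem result :
    (∃ (V : Type) (_ : Fintype V) (_ : DecidableEq V) (G : SimpleGraph V), HamDec 2 G ∧
      ∀ p : V → Fin 2 → ℝ, ¬ RedRigid ∞ G p) ∧
    ∀ (d : ℕ), 2 ≤ d → ∀ (V : Type) [Fintype V] [DecidableEq V] (G : SimpleGraph V),
      HamDec d G → ∃ q : ℝ≥0∞, 1 ≤ q ∧ q ≠ 2 ∧ ∃ p : V → Fin d → ℝ, RedRigid q G p := by
  refine ⟨⟨Fin 5, inferInstance, inferInstance, ⊤, k5, no⟩, fun d hd V _ _ G h => ?_⟩
  obtain ⟨p, hp⟩ := yes hd h
  obtain ⟨n, h1, h2⟩ := (hp.and (eventually_ge_atTop 1)).exists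
  refine ⟨_, ?_, ?_, p, h1⟩
  · exact_mod_cast (by omega : 1 ≤ 2 * n + 2)
  · exact_mod_cast (by omega : 2 * n + 2 ≠ 2)

end Pool.Agent.Results.MP_7ac2f5_co.Redundant
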